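import Pool.Agent.U737.MN.Stm3
import Pool.Agent.TH370.J3089

/-!
# Project MN: many elements with a given pattern at finitely many primes
-/

set_option autoImplicit false

open NumberField Filter Topology

namespace Pool.Agent.U876.MN

open Pool.Agent.TH370.J3089 (IS IS_finite one_le_norm IS_mono IS_le summ)
open Pool.Agent.TH444.ML (nrm)
open Ideal

section count

variable {M : Type} [Field M] [NumberField M]

/-- every nonzero ideal is a squarefree ideal times a square -/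
lemma decomp (I : Ideal (𝓞 M)) (hI : I ≠ ⊥) : ∃ 𝔟 𝔠 : Ideal (𝓞 M), Squarefree 𝔟 ∧ I = 𝔟 * 𝔠 ^ 2 := by
  induction I using WfDvdMonoid.induction_on_irreducible with
  | zero => exact absurd rfl hI
  | unit u hu =>
    refine ⟨1, 1, squarefree_one, ?_⟩
    rw [Ideal.isUnit_iff.1 hu, one_pow, mul_one]
    exact Ideal.one_eq_top.symm
  | mul z p hz hp ih =>
    obtain ⟨𝔟, 𝔠, h1, h2⟩ := ih hz
    by_cases hd : p ∣ 𝔟
    · obtain ⟨b', rfl⟩ := hd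
      refine ⟨b', p * 𝔠, h1.squarefree_of_dvd (dvd_mul_left _ _), ?_⟩
      rw [h2]; ring
    · refine ⟨p * 𝔟, 𝔠, ?_, ?_⟩
      · exact squarefree_mul_iff.mpr ⟨hp.isRelPrime_iff_not_dvd.mpr hd, hp.squarefree, h1⟩
      · rw [h2]; ring

/-- the squarefree ideals of norm at most `Z` which are not divisible by elements of `S` -/
def Sq (S : Set (Ideal (𝓞 M))) (Z : ℝ) : Set (Ideal (𝓞 M)) :=
  {𝔟 | Squarefree 𝔟 ∧ (∀ Q ∈ S, ¬ Q ∣ 𝔟) ∧ (absNorm 𝔟 : ℝ) ≤ Z}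

omit [NumberField M] in
lemma sqf_ne {𝔟 : Ideal (𝓞 M)} (h : Squarefree 𝔟) : 𝔟 ≠ ⊥ := h.ne_zero

lemma Sq_sub (S : Set (Ideal (𝓞 M))) (Z : ℝ) : Sq S Z ⊆ IS M Z := fun _ h => ⟨sqf_ne h.1, h.2.2⟩

lemma Sq_finite (S : Set (Ideal (𝓞 M))) (Z : ℝ) : (Sq S Z).Finite := (IS_finite M Z).subset (Sq_sub S Z)

/-- a positive proportion of the ideals is squarefree -/
lemma sq_low : ∃ c : ℝ, 0 < c ∧ ∃ Z₀ : ℝ, ∀ Z, Z₀ ≤ Z → c * Z ≤ ((Sq (M := M) ∅ Z).ncard : ℝ) := by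
  classical
  have h := NumberField.Ideal.tendsto_norm_le_div_atTop M
  obtain ⟨κ, hκ⟩ : ∃ κ : ℝ, κ = ((2 ^ InfinitePlace.nrRealPlaces M *
      (2 * Real.pi) ^ InfinitePlace.nrComplexPlaces M * Units.regulator M * classNumber M) /
        (Units.torsionOrder M * Real.sqrt |(discr M : ℝ)|)) := ⟨_, rfl⟩
  rw [← hκ] at h
  have hκ0 : 0 < κ := by
    rw [hκ]
    have h1 : 0 < Units.regulator M := Units.regulator_pos M
    have h2 : (0 : ℝ) < classNumber M := by exact_mod_cast classNumber_pos M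
    have h3 : (0 : ℝ) < Units.torsionOrder M := by exact_mod_cast Units.torsionOrder_pos M
    have h4 : 0 < Real.sqrt |(discr M : ℝ)| := by
      apply Real.sqrt_pos.2
      rw [abs_pos]
      exact_mod_cast discr_ne_zero M
    have := Real.pi_pos
    positivity
  -- the number of all ideals
  have hlow : ∀ᶠ Z : ℝ in atTop, κ / 2 * Z ≤ ((IS M Z).ncard : ℝ) := by
    have h1 : ∀ᶠ s : ℝ in atTop,
        3 * κ / 4 < (Nat.card {I : Ideal (𝓞 M) // (Ideal.absNorm I : ℝ) ≤ s} : ℝ) / s :=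
      h.eventually_const_lt (by linarith)
    filter_upwards [h1, eventually_ge_atTop (4 / κ + 1)] with s hs hs1
    have hs0 : 0 < s := by
      have : 0 < 4 / κ := by positivity
      linarith
    rw [lt_div_iff₀ hs0] at hs
    have h2 : Nat.card {I : Ideal (𝓞 M) // (Ideal.absNorm I : ℝ) ≤ s} ≤ (IS M s).ncard + 1 := by
      have h3 : {I : Ideal (𝓞 M) | (Ideal.absNorm I : ℝ) ≤ s} ⊆ insert ⊥ (IS M s) := by
        intro I hI
        by_cases h0 : I = ⊥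
        · exact Or.inl h0
        · exact Or.inr ⟨h0, hI⟩
      have h4 := Set.ncard_le_ncard h3 ((IS_finite M s).insert _)
      exact h4.trans (Set.ncard_insert_le _ _)
    have h3 : (Nat.card {I : Ideal (𝓞 M) // (Ideal.absNorm I : ℝ) ≤ s} : ℝ) ≤
        ((IS M s).ncard : ℝ) + 1 := by exact_mod_cast h2
    have h4 : 1 ≤ κ / 4 * s := by
      have h5 : 4 / κ ≤ s := by linarith
      rw [div_le_iff₀ hκ0] at h5
      linarith
    linarith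
  obtain ⟨Z₁, hZ₁⟩ := eventually_atTop.1 hlow
  obtain ⟨C, hC, hIS⟩ := IS_le M
  obtain ⟨F0, hF0⟩ := summable_iff_vanishing_norm.1 (summ M) (κ / (4 * (C + 1))) (by positivity)
  refine ⟨κ / 4 / (F0.card + 1), by positivity, max Z₁ 0, fun Z hZ => ?_⟩
  have hZ1 := hZ₁ Z ((le_max_left _ _).trans hZ)
  have hZ0 : 0 ≤ Z := (le_max_right _ _).trans hZ
  set IF : ℝ → Finset (Ideal (𝓞 M)) := fun Z => (IS_finite M Z).toFinset with hIF
  set SF : Finset (Ideal (𝓞 M)) := (Sq_finite (M := M) ∅ Z).toFinset with hSF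
  set u : Finset (Ideal (𝓞 M)) := (IF Z).filter (fun 𝔠 => 𝔠 ∉ F0) with hu
  have hcover : IF Z ⊆ (F0.biUnion fun 𝔠 => SF.image (fun 𝔟 => 𝔟 * 𝔠 ^ 2)) ∪
      (u.biUnion fun 𝔠 => (IF (Z / (absNorm 𝔠 : ℝ) ^ 2)).image (fun 𝔟 => 𝔟 * 𝔠 ^ 2)) := by
    intro I hI
    rw [hIF, Set.Finite.mem_toFinset] at hI
    obtain ⟨𝔟, 𝔠, h1, h2⟩ := decomp I hI.1
    have hc0 : 𝔠 ≠ ⊥ := by
      rintro rfl
      apply hI.1
      rw [h2]
      simp
    have hb0 := sqf_ne h1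
    have hb1 := one_le_norm hb0
    have hc1 := one_le_norm hc0
    have hN : (absNorm I : ℝ) = absNorm 𝔟 * (absNorm 𝔠 : ℝ) ^ 2 := by
      rw [h2, map_mul, map_pow]; push_cast; ring
    have hIZ := hI.2
    rw [hN] at hIZ
    have hc2 : (1 : ℝ) ≤ (absNorm 𝔠 : ℝ) ^ 2 := one_le_pow₀ hc1
    rw [Finset.mem_union, Finset.mem_biUnion, Finset.mem_biUnion]
    by_cases hcF : 𝔠 ∈ F0
    · left
      refine ⟨𝔠, hcF, Finset.mem_image.2 ⟨𝔟, ?_, h2.symm⟩⟩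
      rw [hSF, Set.Finite.mem_toFinset]
      refine ⟨h1, fun _ h => absurd h (Set.notMem_empty _), ?_⟩
      nlinarith
    · right
      refine ⟨𝔠, ?_, Finset.mem_image.2 ⟨𝔟, ?_, h2.symm⟩⟩
      · rw [hu, Finset.mem_filter, hIF, Set.Finite.mem_toFinset]
        refine ⟨⟨hc0, ?_⟩, hcF⟩
        nlinarith
      · rw [hIF, Set.Finite.mem_toFinset]
        refine ⟨hb0, ?_⟩
        rw [le_div_iff₀ (by positivity)]
        exact hIZ
  have hcard := (Finset.card_le_card hcover).trans (Finset.card_union_le _ _)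
  have h1 : (F0.biUnion fun 𝔠 => SF.image (fun 𝔟 => 𝔟 * 𝔠 ^ 2)).card ≤ F0.card * SF.card := by
    refine Finset.card_biUnion_le.trans ?_
    calc ∑ 𝔠 ∈ F0, (SF.image (fun 𝔟 => 𝔟 * 𝔠 ^ 2)).card ≤ ∑ _𝔠 ∈ F0, SF.card :=
          Finset.sum_le_sum fun _ _ => Finset.card_image_le
      _ = F0.card * SF.card := by simp
  have h2 : ((u.biUnion fun 𝔠 => (IF (Z / (absNorm 𝔠 : ℝ) ^ 2)).image (fun 𝔟 => 𝔟 * 𝔠 ^ 2)).card : ℝ) ≤
      κ / 4 * Z := by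
    have h3 : ((u.biUnion fun 𝔠 => (IF (Z / (absNorm 𝔠 : ℝ) ^ 2)).image (fun 𝔟 => 𝔟 * 𝔠 ^ 2)).card : ℝ) ≤
        ∑ 𝔠 ∈ u, ((IF (Z / (absNorm 𝔠 : ℝ) ^ 2)).card : ℝ) := by
      have := Finset.card_biUnion_le (s := u)
        (t := fun 𝔠 => (IF (Z / (absNorm 𝔠 : ℝ) ^ 2)).image (fun 𝔟 => 𝔟 * 𝔠 ^ 2))
      have h4 : ∑ 𝔠 ∈ u, ((IF (Z / (absNorm 𝔠 : ℝ) ^ 2)).image (fun 𝔟 => 𝔟 * 𝔠 ^ 2)).card ≤
        ∑ 𝔠 ∈ u, (IF (Z / (absNorm 𝔠 : ℝ) ^ 2)).card := Finset.sum_le_sum fun _ _ => Finset.card_image_le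
      exact_mod_cast this.trans h4
    have h5 : ∀ 𝔠 ∈ u, ((IF (Z / (absNorm 𝔠 : ℝ) ^ 2)).card : ℝ) ≤
        C * Z * (1 / (absNorm 𝔠 : ℝ) ^ 2) := by
      intro 𝔠 _
      have h6 := hIS (Z / (absNorm 𝔠 : ℝ) ^ 2) (by positivity)
      rw [Set.ncard_eq_toFinset_card _ (IS_finite M _)] at h6
      refine h6.trans (le_of_eq ?_)
      ring
    have h7 := hF0 u (by
      rw [Finset.disjoint_left]
      intro a ha hb
      exact (Finset.mem_filter.1 ha).2 hb)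
    have h8 : ∑ 𝔠 ∈ u, 1 / (absNorm 𝔠 : ℝ) ^ 2 < κ / (4 * (C + 1)) :=
      (le_abs_self _).trans_lt (by rw [← Real.norm_eq_abs]; exact h7)
    calc _ ≤ ∑ 𝔠 ∈ u, ((IF (Z / (absNorm 𝔠 : ℝ) ^ 2)).card : ℝ) := h3
      _ ≤ ∑ 𝔠 ∈ u, C * Z * (1 / (absNorm 𝔠 : ℝ) ^ 2) := Finset.sum_le_sum h5
      _ = C * Z * ∑ 𝔠 ∈ u, (1 / (absNorm 𝔠 : ℝ) ^ 2) := by rw [Finset.mul_sum]
      _ ≤ C * Z * (κ / (4 * (C + 1))) := mul_le_mul_of_nonneg_left h8.le (by positivity)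
      _ ≤ (C + 1) * Z * (κ / (4 * (C + 1))) := by
          apply mul_le_mul_of_nonneg_right _ (by positivity)
          nlinarith
      _ = κ / 4 * Z := by field_simp
  have h3 : ((IS M Z).ncard : ℝ) = ((IF Z).card : ℝ) := by
    rw [Set.ncard_eq_toFinset_card _ (IS_finite M _)]
  have h4 : ((Sq (M := M) ∅ Z).ncard : ℝ) = (SF.card : ℝ) := by
    rw [Set.ncard_eq_toFinset_card _ (Sq_finite ∅ Z)]
  rw [h3] at hZ1
  rw [h4]
  have h5 : ((IF Z).card : ℝ) ≤ F0.card * SF.card + κ / 4 * Z := by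
    have h6 : ((IF Z).card : ℝ) ≤ ((F0.biUnion fun 𝔠 => SF.image (fun 𝔟 => 𝔟 * 𝔠 ^ 2)).card : ℝ) +
      ((u.biUnion fun 𝔠 => (IF (Z / (absNorm 𝔠 : ℝ) ^ 2)).image (fun 𝔟 => 𝔟 * 𝔠 ^ 2)).card : ℝ) := by
      exact_mod_cast hcard
    have h7 : ((F0.biUnion fun 𝔠 => SF.image (fun 𝔟 => 𝔟 * 𝔠 ^ 2)).card : ℝ) ≤ F0.card * SF.card := by
      exact_mod_cast h1
    linarith
  have h6 : κ / 4 * Z ≤ (F0.card + 1) * SF.card := by
    have h8 : (0 : ℝ) ≤ (SF.card : ℝ) := Nat.cast_nonneg _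
    nlinarith
  have h9 : (0 : ℝ) < (F0.card : ℝ) + 1 := by positivity
  rw [div_mul_eq_mul_div, div_le_iff₀ h9]
  linarith

/-- removal of one prime -/
lemma Sq_insert (S : Set (Ideal (𝓞 M))) (Q : Ideal (𝓞 M)) (hQ : Prime Q)  (Z : ℝ) :
    (Sq S Z).ncard ≤ 2 * (Sq (insert Q S) Z).ncard := by
  have hsub : Sq S Z ⊆ Sq (insert Q S) Z ∪ (fun 𝔟 => Q * 𝔟) '' Sq (insert Q S) Z := by
    intro 𝔟 h𝔟
    by_cases hd : Q ∣ 𝔟
    · right
      obtain ⟨b', rfl⟩ := hd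
      refine ⟨b', ⟨h𝔟.1.squarefree_of_dvd (dvd_mul_left _ _), ?_, ?_⟩, rfl⟩
      · intro R hR hRb
        rcases Set.mem_insert_iff.1 hR with rfl | hR
        · have := h𝔟.1 R (mul_dvd_mul_left R hRb)
          exact hQ.not_isUnit this
        · exact h𝔟.2.1 R hR (hRb.mul_left Q)
      · have h1 : (1 : ℝ) ≤ absNorm Q := one_le_norm hQ.ne_zero
        have h2 := h𝔟.2.2
        rw [map_mul, Nat.cast_mul] at h2
        have h3 : (0 : ℝ) ≤ absNorm b' := Nat.cast_nonneg _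
        nlinarith
    · left
      refine ⟨h𝔟.1, ?_, h𝔟.2.2⟩
      intro R hR
      rcases Set.mem_insert_iff.1 hR with rfl | hR
      · exact hd
      · exact h𝔟.2.1 R hR
  have hf := Sq_finite (insert Q S) Z
  calc (Sq S Z).ncard ≤ (Sq (insert Q S) Z ∪ (fun 𝔟 => Q * 𝔟) '' Sq (insert Q S) Z).ncard :=
        Set.ncard_le_ncard hsub (hf.union (hf.image _))
    _ ≤ (Sq (insert Q S) Z).ncard + ((fun 𝔟 => Q * 𝔟) '' Sq (insert Q S) Z).ncard :=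
        Set.ncard_union_le _ _
    _ ≤ (Sq (insert Q S) Z).ncard + (Sq (insert Q S) Z).ncard :=
        Nat.add_le_add_left (Set.ncard_image_le hf) _
    _ = 2 * (Sq (insert Q S) Z).ncard := by ring

/-- a positive proportion of the ideals is squarefree and prime to `S` -/
lemma sq_low' (S : Finset (Ideal (𝓞 M))) (hS : ∀ Q ∈ S, Prime Q) :
    ∃ c : ℝ, 0 < c ∧ ∃ Z₀ : ℝ, ∀ Z, Z₀ ≤ Z → c * Z ≤ ((Sq (S : Set (Ideal (𝓞 M))) Z).ncard : ℝ) := by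
  classical
  induction S using Finset.induction_on with
  | empty =>
    rw [Finset.coe_empty]
    exact sq_low
  | insert Q S hQS ih =>
    obtain ⟨c, hc, Z₀, h⟩ := ih fun R hR => hS R (Finset.mem_insert_of_mem hR)
    refine ⟨c / 2, by positivity, Z₀, fun Z hZ => ?_⟩
    have h1 := h Z hZ
    have h2 := Sq_insert (S : Set (Ideal (𝓞 M))) Q (hS Q (Finset.mem_insert_self _ _)) Z
    rw [Finset.coe_insert]
    have h3 : ((Sq (S : Set (Ideal (𝓞 M))) Z).ncard : ℝ) ≤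
      2 * ((Sq (insert Q (S : Set (Ideal (𝓞 M)))) Z).ncard : ℝ) := by exact_mod_cast h2
    linarith

/-- a cofactor prime to `𝔪` -/
lemma cofactor (J 𝔪 : Ideal (𝓞 M)) (hJ : J ≠ ⊥) (hm : 𝔪 ≠ ⊥) (hm1 : 𝔪 ≠ ⊤) :
    ∃ (K : Ideal (𝓞 M)) (a : 𝓞 M), a ≠ 0 ∧ J * K = span {a} ∧ 𝔪 ⊔ K = ⊤ := by
  have h0 : 𝔪 * J ≠ 0 := mul_ne_zero hm hJ
  obtain ⟨a, ha⟩ := IsDedekindDomain.exists_sup_span_eq (I := 𝔪 * J) (J := J) Ideal.mul_le_right h0
  have h1 : J ∣ span {a} := by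
    rw [Ideal.dvd_iff_le, ← ha]
    exact le_sup_right
  obtain ⟨K, hK⟩ := h1
  refine ⟨K, a, ?_, hK.symm, ?_⟩
  · rintro rfl
    rw [Ideal.span_singleton_zero, sup_bot_eq] at ha
    apply hm1
    have h2 : J * 𝔪 = J * 1 := by rw [mul_comm, ha, mul_one]
    have h3 := mul_left_cancel₀ (show J ≠ 0 from hJ) h2
    rw [h3, Ideal.one_eq_top]
  · have h2 : J * (𝔪 ⊔ K) = J * 1 := by
      rw [Ideal.mul_sup, ← hK, mul_comm J 𝔪, ha, mul_one]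
    have h3 := mul_left_cancel₀ (show J ≠ 0 from hJ) h2
    rw [h3, Ideal.one_eq_top]

lemma class_mul (X Y : Ideal (𝓞 M)) (hX : X ∈ nonZeroDivisors (Ideal (𝓞 M)))
    (hY : Y ∈ nonZeroDivisors (Ideal (𝓞 M))) (hXY : X * Y ∈ nonZeroDivisors (Ideal (𝓞 M))) :
    ClassGroup.mk0 ⟨X * Y, hXY⟩ = ClassGroup.mk0 ⟨X, hX⟩ * ClassGroup.mk0 ⟨Y, hY⟩ := by
  rw [← map_mul]
  rfl

lemma class_one (X : Ideal (𝓞 M)) (hX : X ∈ nonZeroDivisors (Ideal (𝓞 M))) (a : 𝓞 M)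
    (h : X = span {a}) : ClassGroup.mk0 ⟨X, hX⟩ = 1 :=
  (ClassGroup.mk0_eq_one_iff hX).2 ⟨⟨a, h⟩⟩

lemma class_gen (X : Ideal (𝓞 M)) (hX : X ∈ nonZeroDivisors (Ideal (𝓞 M)))
    (h : ClassGroup.mk0 ⟨X, hX⟩ = 1) : ∃ α : 𝓞 M, span {α} = X := by
  obtain ⟨⟨α, hα⟩⟩ := (ClassGroup.mk0_eq_one_iff hX).1 h
  exact ⟨α, hα.symm⟩

end count

open Pool.Agent.U737.MN (Many)

theorem t_Many : Many := by
  classical
  intro M _ _ T P hT hP
  have hTp : ∀ Q ∈ T, Prime Q := fun Q hQ => Ideal.prime_of_isPrime (hT Q hQ).2 (hT Q hQ).1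
  -- the modulus
  set 𝔪 : Ideal (𝓞 M) := ∏ Q ∈ T, Q with h𝔪
  have hm0 : 𝔪 ≠ ⊥ := Finset.prod_ne_zero_iff.2 fun Q hQ => (hTp Q hQ).ne_zero
  have hm1 : 𝔪 ≠ ⊤ := by
    intro h
    have h1 : P ∣ 𝔪 := Finset.dvd_prod_of_mem _ hP
    rw [h, ← Ideal.one_eq_top] at h1
    exact (hTp P hP).not_isUnit (isUnit_of_dvd_one h1)
  -- the ideals for the classes
  have hrep : ∀ D : ClassGroup (𝓞 M), ∃ (K : Ideal (𝓞 M)), K ≠ ⊥ ∧ 𝔪 ⊔ K = ⊤ ∧
      ∀ 𝔟 : Ideal (𝓞 M), ∀ h𝔟 : 𝔟 ∈ nonZeroDivisors (Ideal (𝓞 M)), ClassGroup.mk0 ⟨𝔟, h𝔟⟩ = D →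
        ∃ α : 𝓞 M, span {α} = P * K * 𝔟 := by
    intro D
    obtain ⟨⟨J, hJ⟩, hJD⟩ := ClassGroup.mk0_surjective D
    have hJ0 : J ≠ ⊥ := nonZeroDivisors.ne_zero hJ
    obtain ⟨K, a, ha, hK1, hK2⟩ := cofactor (P * J) 𝔪 (mul_ne_zero (hTp P hP).ne_zero hJ0) hm0 hm1
    have hK0 : K ≠ ⊥ := by
      rintro rfl
      rw [Ideal.mul_bot] at hK1
      exact ha (Ideal.span_singleton_eq_bot.1 hK1.symm)
    refine ⟨K, hK0, hK2, fun 𝔟 h𝔟 hD => ?_⟩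
    have h1 : (P * K) ∈ nonZeroDivisors (Ideal (𝓞 M)) :=
      mem_nonZeroDivisors_of_ne_zero (mul_ne_zero (hTp P hP).ne_zero hK0)
    have h2 : ClassGroup.mk0 ⟨P * K * J, Submonoid.mul_mem _ h1 hJ⟩ = 1 :=
      class_one _ _ a (by rw [← hK1]; ring)
    rw [class_mul (P * K) J h1 hJ, hJD, ← hD,
      ← class_mul (P * K) 𝔟 h1 h𝔟 (Submonoid.mul_mem _ h1 h𝔟)] at h2
    exact class_gen _ _ h2
  choose K hK0 hKm hKb using hrep
  -- the primes to avoid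
  set S : Finset (Ideal (𝓞 M)) := T ∪ Finset.univ.biUnion
    (fun D : ClassGroup (𝓞 M) => (UniqueFactorizationMonoid.normalizedFactors (K D)).toFinset) with hS
  have hSp : ∀ Q ∈ S, Prime Q := by
    intro Q hQ
    rw [hS, Finset.mem_union, Finset.mem_biUnion] at hQ
    rcases hQ with hQ | ⟨D, -, hQ⟩
    · exact hTp Q hQ
    · exact UniqueFactorizationMonoid.prime_of_normalized_factor Q (Multiset.mem_toFinset.1 hQ)
  obtain ⟨c, hc, Z₀, hlow⟩ := sq_low' S hSp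
  have hPK : ∀ D, P * K D ≠ ⊥ := fun D => mul_ne_zero (hTp P hP).ne_zero (hK0 D)
  obtain ⟨m, hmpos, hmD⟩ : ∃ m : ℝ, 0 < m ∧ ∀ D, (absNorm (P * K D) : ℝ) ≤ m := by
    have h1 : ∀ D, (absNorm (P * K D) : ℝ) ≤ ∑ D : ClassGroup (𝓞 M), (absNorm (P * K D) : ℝ) := fun D =>
      Finset.single_le_sum (f := fun D => (absNorm (P * K D) : ℝ)) (fun _ _ => Nat.cast_nonneg _)
        (Finset.mem_univ D)
    exact ⟨_, lt_of_lt_of_le one_pos ((one_le_norm (hPK 1)).trans (h1 1)), h1⟩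
  obtain ⟨h, hh⟩ : ∃ h : ℝ, h = (Fintype.card (ClassGroup (𝓞 M)) : ℝ) := ⟨_, rfl⟩
  have hhpos : 0 < h := by rw [hh]; exact_mod_cast Fintype.card_pos
  refine ⟨c / m / h, div_pos (div_pos hc hmpos) hhpos, Z₀ * m, fun Y hY => ?_⟩
  have hYm : Z₀ ≤ Y / m := by rwa [le_div_iff₀ hmpos]
  have hcount := hlow (Y / m) hYm
  set B : Finset (Ideal (𝓞 M)) := (Sq_finite (S : Set (Ideal (𝓞 M))) (Y / m)).toFinset with hB
  rw [Set.ncard_eq_toFinset_card _ (Sq_finite (S : Set (Ideal (𝓞 M))) (Y / m)), ← hB] at hcount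
  -- the class of an ideal
  set cl : Ideal (𝓞 M) → ClassGroup (𝓞 M) := fun 𝔟 =>
    if h𝔟 : 𝔟 ∈ nonZeroDivisors (Ideal (𝓞 M)) then ClassGroup.mk0 ⟨𝔟, h𝔟⟩ else 1 with hcl
  obtain ⟨D, hD⟩ : ∃ D : ClassGroup (𝓞 M), c / m / h * Y ≤ ((B.filter fun 𝔟 => cl 𝔟 = D).card : ℝ) := by
    by_contra hcon
    push Not at hcon
    have h1 : (B.card : ℝ) = ∑ D : ClassGroup (𝓞 M), ((B.filter fun 𝔟 => cl 𝔟 = D).card : ℝ) := by
      rw [Finset.card_eq_sum_card_fiberwise (f := cl) (t := Finset.univ) (fun _ _ => Finset.mem_univ _)]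
      push_cast
      rfl
    have h2 : ∑ D : ClassGroup (𝓞 M), ((B.filter fun 𝔟 => cl 𝔟 = D).card : ℝ) <
        ∑ _D : ClassGroup (𝓞 M), c / m / h * Y :=
      Finset.sum_lt_sum_of_nonempty ⟨1, Finset.mem_univ _⟩ fun D _ => hcon D
    rw [Finset.sum_const, nsmul_eq_mul, Finset.card_univ, ← hh] at h2
    have h3 : h * (c / m / h * Y) = c * (Y / m) := by field_simp
    rw [h3, ← h1] at h2
    linarith
  -- the generators
  have hgen : ∀ 𝔟 : Ideal (𝓞 M), ∃ α : 𝓞 M, 𝔟 ∈ B.filter (fun 𝔟 => cl 𝔟 = D) →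
      span {α} = P * K D * 𝔟 := by
    intro 𝔟
    by_cases hb : 𝔟 ∈ B.filter (fun 𝔟 => cl 𝔟 = D)
    · rw [Finset.mem_filter, hB, Set.Finite.mem_toFinset] at hb
      have h𝔟 : 𝔟 ∈ nonZeroDivisors (Ideal (𝓞 M)) := mem_nonZeroDivisors_of_ne_zero (sqf_ne hb.1.1)
      have h1 := hb.2
      rw [hcl] at h1
      simp only [h𝔟, dif_pos] at h1
      obtain ⟨α, hα⟩ := hKb D 𝔟 h𝔟 h1
      exact ⟨α, fun _ => hα⟩
    · exact ⟨0, fun h => absurd h hb⟩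
  choose gen hgen using hgen
  have hinj : Set.InjOn gen (B.filter (fun 𝔟 => cl 𝔟 = D) : Finset (Ideal (𝓞 M))) := by
    intro 𝔟 hb 𝔟' hb' he
    have h1 := hgen 𝔟 (Finset.mem_coe.1 hb)
    have h2 := hgen 𝔟' (Finset.mem_coe.1 hb')
    rw [he, h2] at h1
    exact (mul_left_cancel₀ (show P * K D ≠ 0 from hPK D) h1).symm
  refine ⟨P * K D, (B.filter fun 𝔟 => cl 𝔟 = D).image gen, hPK D, ?_, ?_, ?_⟩
  · rw [Finset.card_image_of_injOn hinj]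
    exact hD
  · intro α hα
    obtain ⟨𝔟, hb, rfl⟩ := Finset.mem_image.1 hα
    have hsp := hgen 𝔟 hb
    rw [Finset.mem_filter, hB, Set.Finite.mem_toFinset] at hb
    obtain ⟨⟨hsq, hcop, hnorm⟩, -⟩ := hb
    have hb0 := sqf_ne hsq
    have hne : gen 𝔟 ≠ 0 := by
      intro h0
      rw [h0, Ideal.span_singleton_zero] at hsp
      exact mul_ne_zero (hPK D) hb0 hsp.symm
    have hmem : ∀ Q : Ideal (𝓞 M), gen 𝔟 ∈ Q ↔ Q ∣ P * K D * 𝔟 := by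
      intro Q
      rw [← hsp, Ideal.dvd_span_singleton]
    have hTK : ∀ Q ∈ T, ¬ Q ∣ K D := by
      intro Q hQ hd
      have h1 : Q ∣ 𝔪 := Finset.dvd_prod_of_mem _ hQ
      have h2 : 𝔪 ⊔ K D ≤ Q := sup_le (Ideal.le_of_dvd h1) (Ideal.le_of_dvd hd)
      rw [hKm, top_le_iff] at h2
      exact (hTp Q hQ).not_isUnit (by rw [h2, ← Ideal.one_eq_top]; exact isUnit_one)
    have hTS : ∀ Q ∈ T, Q ∈ S := fun Q hQ => Finset.mem_union_left _ hQ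
    refine ⟨hne, ?_, ?_, ?_, ?_, 𝔟, hsq, ?_, hsp⟩
    · have h1 : nrm (gen 𝔟) = (absNorm (span {gen 𝔟}) : ℝ) := by
        unfold nrm
        rw [Ideal.absNorm_span_singleton, Nat.cast_natAbs]
      rw [h1, hsp, map_mul, Nat.cast_mul]
      have h2 := hmD D
      have h3 : (0 : ℝ) ≤ (absNorm 𝔟 : ℝ) := Nat.cast_nonneg _
      calc (absNorm (P * K D) : ℝ) * (absNorm 𝔟 : ℝ) ≤ m * (Y / m) :=
            mul_le_mul h2 hnorm h3 hmpos.le
        _ = Y := by field_simp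
    · rw [hmem]
      exact ⟨K D * 𝔟, by ring⟩
    · rw [hmem]
      intro hd
      have h1 : P ∣ K D * 𝔟 := by
        obtain ⟨X, hX⟩ := hd
        refine ⟨X, ?_⟩
        apply mul_left_cancel₀ (show P ≠ 0 from (hTp P hP).ne_zero)
        rw [← mul_assoc, hX]; ring
      rcases (hTp P hP).dvd_or_dvd h1 with h2 | h2
      · exact hTK P hP h2
      · exact hcop P (Finset.mem_coe.2 (hTS P hP)) h2
    · intro Q hQ hQP
      rw [hmem]
      intro hd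
      rcases (hTp Q hQ).dvd_or_dvd hd with h1 | h1
      · rcases (hTp Q hQ).dvd_or_dvd h1 with h2 | h2
        · have h3 := (hT P hP).1.isMaximal (hT P hP).2
          have h4 := Ideal.dvd_iff_le.1 h2
          have h5 := ((hT Q hQ).1.isMaximal (hT Q hQ).2)
          exact hQP (h3.eq_of_le h5.ne_top h4).symm
        · exact hTK Q hQ h2
      · exact hcop Q (Finset.mem_coe.2 (hTS Q hQ)) h1
    · rw [Ideal.isCoprime_iff_sup_eq]
      by_contra hcon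
      obtain ⟨Q, hQ, hle⟩ := Ideal.exists_le_maximal _ hcon
      have h1 : Q ∣ 𝔟 := Ideal.dvd_iff_le.2 (le_sup_left.trans hle)
      have h2 : Q ∣ P * K D := Ideal.dvd_iff_le.2 (le_sup_right.trans hle)
      have hQ0 : Q ≠ ⊥ := by
        rintro rfl
        exact hb0 (zero_dvd_iff.1 h1)
      have hQp : Prime Q := Ideal.prime_of_isPrime hQ0 hQ.isPrime
      rcases hQp.dvd_or_dvd h2 with h3 | h3
      · have h4 := Ideal.dvd_iff_le.1 h3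
        have h5 := (hT P hP).1.isMaximal (hT P hP).2
        have h6 := h5.eq_of_le hQ.ne_top h4
        rw [← h6] at h1
        exact hcop P (Finset.mem_coe.2 (hTS P hP)) h1
      · refine hcop Q (Finset.mem_coe.2 (Finset.mem_union_right _ (Finset.mem_biUnion.2
          ⟨D, Finset.mem_univ _, Multiset.mem_toFinset.2 ?_⟩))) h1
        obtain ⟨Q', hQ', hass⟩ := UniqueFactorizationMonoid.exists_mem_normalizedFactors_of_dvd
          (hK0 D) hQp.irreducible h3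
        rw [associated_iff_eq.1 hass]
        exact hQ'
  · intro α hα β hβ he
    obtain ⟨𝔟, hb, rfl⟩ := Finset.mem_image.1 hα
    obtain ⟨𝔟', hb', rfl⟩ := Finset.mem_image.1 hβ
    rw [hgen 𝔟 hb, hgen 𝔟' hb'] at he
    rw [mul_left_cancel₀ (show P * K D ≠ 0 from hPK D) he]

end Pool.Agent.U876.MN
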